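import Mathlib

set_option autoImplicit false

namespace Pool.Agent.Results.MP_9703cd_gt.Cubic

open Set Filter Topology
open scoped ContDiff

/-- A continuous t-norm, given as a function on the plane of which only the values on the unit
square matter. -/
def IsContTNorm (T : ℝ × ℝ → ℝ) : Prop :=
  ContinuousOn T (Icc 0 1 ×ˢ Icc 0 1) ∧ ∀ x ∈ Icc (0 : ℝ) 1, T (x, 1) = x ∧ ∀ y ∈ Icc (0 : ℝ) 1,
    T (x, y) ∈ Icc (0 : ℝ) 1 ∧ T (x, y) = T (y, x) ∧ ∀ z ∈ Icc (0 : ℝ) 1,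
      T (T (x, y), z) = T (x, T (y, z)) ∧ (y ≤ z → T (x, y) ≤ T (x, z))

/-- The first fundamental form of the graph of `T` over the point `p`. -/
noncomputable def I (T : ℝ × ℝ → ℝ) (p v w : ℝ × ℝ) : ℝ :=
  v.1 * w.1 + v.2 * w.2 + fderiv ℝ T p v * fderiv ℝ T p w

/-- The second fundamental form of the graph of `T` over the point `p`, for the upward normal. -/
noncomputable def II (T : ℝ × ℝ → ℝ) (p v w : ℝ × ℝ) : ℝ :=
  fderiv ℝ (fderiv ℝ T) p v w / √(1 + fderiv ℝ T p (1, 0) ^ 2 + fderiv ℝ T p (0, 1) ^ 2)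

/-- `v` is a principal direction: an eigenvector of the shape operator. -/
def Principal (T : ℝ × ℝ → ℝ) (p v : ℝ × ℝ) : Prop := v ≠ 0 ∧ ∃ κ, ∀ w, II T p v w = κ * I T p v w

/-- The graph of `T` is isothermal near the point over `p`: there are smooth local parameters whose
coordinate curves are lines of curvature and in which the metric is conformal. -/
def Isothermal (T : ℝ × ℝ → ℝ) (p : ℝ × ℝ) : Prop :=
  ∃ (V : Set (ℝ × ℝ)) (Φ : ℝ × ℝ → ℝ × ℝ) (a : ℝ × ℝ), IsOpen V ∧ a ∈ V ∧ Φ a = p ∧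
    ContDiffOn ℝ ∞ Φ V ∧ ∀ b ∈ V, Principal T (Φ b) (fderiv ℝ Φ b (1, 0)) ∧
      Principal T (Φ b) (fderiv ℝ Φ b (0, 1)) ∧ ∃ l > 0, ∀ v : ℝ × ℝ,
        I T (Φ b) (fderiv ℝ Φ b v) (fderiv ℝ Φ b v) = l * (v.1 ^ 2 + v.2 ^ 2)

noncomputable def D (a : ℝ × ℝ) (f : ℝ × ℝ → ℝ) (p : ℝ × ℝ) : ℝ := fderiv ℝ f p a

lemma Dc {f : ℝ × ℝ → ℝ} {O : ℝ × ℝ} {n : ℕ} (a : ℝ × ℝ) (h : ContDiffAt ℝ (n + 1 : ℕ) f O) :
    ContDiffAt ℝ n (D a f) O :=
  (h.fderiv_right (by simp)).clm_apply contDiffAt_const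

lemma Dmul {f g : ℝ × ℝ → ℝ} {p : ℝ × ℝ} (a : ℝ × ℝ) (hf : DifferentiableAt ℝ f p)
    (hg : DifferentiableAt ℝ g p) : D a (f * g) p = f p * D a g p + g p * D a f p := by
  simp [D, fderiv_mul hf hg]

lemma Dadd {f g : ℝ × ℝ → ℝ} {p : ℝ × ℝ} (a : ℝ × ℝ) (hf : DifferentiableAt ℝ f p)
    (hg : DifferentiableAt ℝ g p) : D a (f + g) p = D a f p + D a g p := by
  simp [D, fderiv_add hf hg]

lemma Dsym {f : ℝ × ℝ → ℝ} {p : ℝ × ℝ} (a b : ℝ × ℝ) (h : ContDiffAt ℝ 2 f p) :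
    D a (D b f) p = D b (D a f) p := by
  have k : ∀ a b, D a (D b f) p = fderiv ℝ (fderiv ℝ f) p a b := fun a b => by
    unfold D
    rw [fderiv_clm_apply ((h.fderiv_right (m := 1) (by norm_num)).differentiableAt (by simp))
      (differentiableAt_const _)]
    simp
  rw [k, k]
  exact h.isSymmSndFDerivAt (by simp) a b

lemma Dcongr {f g : ℝ × ℝ → ℝ} {p : ℝ × ℝ} (a : ℝ × ℝ) (h : f =ᶠ[𝓝 p] g) :
    D a f =ᶠ[𝓝 p] D a g :=
  (h.fderiv (𝕜 := ℝ)).mono fun _ e => congrArg (· a) e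

structure J (O a b : ℝ × ℝ) (f : ℝ × ℝ → ℝ) (c ca cb cab : ℝ) : Prop where
  s : ContDiffAt ℝ 2 f O
  h : f O = c
  ha : D a f O = ca
  hb : D b f O = cb
  hab : D a (D b f) O = cab

section
variable {O a b : ℝ × ℝ} {f g : ℝ × ℝ → ℝ} {c ca cb cab d da db dab : ℝ}

lemma J.ev (h : J O a b f c ca cb cab) : ∀ᶠ p in 𝓝 O, DifferentiableAt ℝ f p :=
  (h.s.eventually (by simp)).mono fun _ h => h.differentiableAt (by simp)

lemma J.dd (h : J O a b f c ca cb cab) : DifferentiableAt ℝ (D b f) O :=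
  (Dc (n := 1) b h.s).differentiableAt (by simp)

lemma J.add (h : J O a b f c ca cb cab) (k : J O a b g d da db dab) :
    J O a b (f + g) (c + d) (ca + da) (cb + db) (cab + dab) := by
  have e := h.ev.self_of_nhds
  have e' := k.ev.self_of_nhds
  refine ⟨h.s.add k.s, by simp [h.h, k.h], by rw [Dadd a e e', h.ha, k.ha],
    by rw [Dadd b e e', h.hb, k.hb], ?_⟩
  rw [(Dcongr a (g := D b f + D b g) ((h.ev.and k.ev).mono fun p e =>
    Dadd b e.1 e.2)).self_of_nhds, Dadd a h.dd k.dd, h.hab, k.hab]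

lemma J.mul (h : J O a b f c ca cb cab) (k : J O a b g d da db dab) :
    J O a b (f * g) (c * d) (c * da + d * ca) (c * db + d * cb)
      (c * dab + db * ca + (d * cab + cb * da)) := by
  have e := h.ev.self_of_nhds
  have e' := k.ev.self_of_nhds
  refine ⟨h.s.mul k.s, by simp [h.h, k.h], by rw [Dmul a e e', h.ha, k.ha, h.h, k.h],
    by rw [Dmul b e e', h.hb, k.hb, h.h, k.h], ?_⟩
  rw [(Dcongr a (g := f * D b g + g * D b f) ((h.ev.and k.ev).mono fun p e =>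
    Dmul b e.1 e.2)).self_of_nhds, Dadd a (e.mul k.dd) (e'.mul h.dd), Dmul a e k.dd, Dmul a e' h.dd,
    h.hab, k.hab, h.ha, k.ha, h.hb, k.hb, h.h, k.h]

lemma J.const (c : ℝ) : J O a b (fun _ => c) c 0 0 0 :=
  ⟨contDiffAt_const, rfl, by simp [D], by simp [D], by
    rw [show D b (fun _ => c) = fun _ => 0 from funext fun _ => by simp [D]]; simp [D]⟩

lemma J.eq (h : J O a b f c ca cb cab) (k : J O a b g d da db dab) (e : f =ᶠ[𝓝 O] g) :
    c = d ∧ ca = da ∧ cb = db ∧ cab = dab :=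
  ⟨by rw [← h.h, ← k.h, e.self_of_nhds], by rw [← h.ha, ← k.ha, (Dcongr a e).self_of_nhds],
    by rw [← h.hb, ← k.hb, (Dcongr b e).self_of_nhds],
    by rw [← h.hab, ← k.hab, (Dcongr a (Dcongr b e)).self_of_nhds]⟩

lemma J.of (h : ContDiffAt ℝ 2 f O) : J O a b f (f O) (D a f O) (D b f O) (D a (D b f) O) :=
  ⟨h, rfl, rfl, rfl, rfl⟩

end

lemma core {O u v : ℝ × ℝ} {X Y : ℝ × ℝ → ℝ} (hX : ContDiffAt ℝ 3 X O) (hY : ContDiffAt ℝ 3 Y O)
    (X0 : X O = 0) (Y0 : Y O ≠ 0) (hu : D u Y O = 0) (hv : D v Y O ≠ 0)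
    (e1 : X * (D u X * D v X) + Y * (D u Y * D v Y) =ᶠ[𝓝 O] fun _ => 0)
    (e2 : D u X * D v X + D u Y * D v Y + ((fun _ => 6) * X * X * D u X + (fun _ => 6) * Y * Y *
      D u Y) * ((fun _ => 6) * X * X * D v X + (fun _ => 6) * Y * Y * D v Y) =ᶠ[𝓝 O] fun _ => 0)
    (e3 : D u X * D u X + D u Y * D u Y + ((fun _ => 6) * X * X * D u X + (fun _ => 6) * Y * Y *
      D u Y) * ((fun _ => 6) * X * X * D u X + (fun _ => 6) * Y * Y * D u Y) =ᶠ[𝓝 O]
      D v X * D v X + D v Y * D v Y + ((fun _ => 6) * X * X * D v X + (fun _ => 6) * Y * Y *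
      D v Y) * ((fun _ => 6) * X * X * D v X + (fun _ => 6) * Y * Y * D v Y)) : False := by
  have x : ∀ a b, J O a b X _ _ _ _ := fun a b => .of (hX.of_le (by norm_num))
  have y : ∀ a b, J O a b Y _ _ _ _ := fun a b => .of (hY.of_le (by norm_num))
  have x' : ∀ a b c, J O a b (D c X) _ _ _ _ := fun a b c => .of (Dc (n := 2) c hX)
  have y' : ∀ a b c, J O a b (D c Y) _ _ _ _ := fun a b c => .of (Dc (n := 2) c hY)
  have z := fun a b c => ((((J.const 6).mul (x a b)).mul (x a b)).mul (x' a b c)).add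
    ((((J.const 6).mul (y a b)).mul (y a b)).mul (y' a b c))
  have f1 := fun a b => (((x a b).mul ((x' a b u).mul (x' a b v))).add
    ((y a b).mul ((y' a b u).mul (y' a b v)))).eq (.const 0) e1
  have f := fun a b c d => (((x' a b c).mul (x' a b d)).add ((y' a b c).mul (y' a b d))).add
    ((z a b c).mul (z a b d))
  have f2 := fun a b => (f a b u v).eq (.const 0) e2
  have f3 := (f u v u u).eq (f u v v v) e3
  have s : ∀ {f : ℝ × ℝ → ℝ}, ContDiffAt ℝ 3 f O → D v (D u f) =ᶠ[𝓝 O] D u (D v f) := fun h =>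
    (h.eventually (by simp)).mono fun p h => Dsym _ _ (h.of_le (by norm_num))
  have s1 := (s hX).self_of_nhds
  have s2 := (s hY).self_of_nhds
  have s3 := (Dcongr u (s hX)).self_of_nhds
  have s4 : D u (D v (D v Y)) O = D v (D v (D u Y)) O :=
    (Dsym _ _ (Dc (n := 2) v hY)).trans (Dcongr v (s hY)).self_of_nhds.symm
  obtain ⟨a0, a1, -, a2⟩ := f2 u u
  obtain ⟨-, b1, -, b2⟩ := f1 u u
  obtain ⟨-, c1, -, c2⟩ := f1 v v
  obtain ⟨-, d1, -⟩ := f2 v v
  obtain ⟨g0, -, -, g1⟩ := f3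
  simp only [X0, hu, mul_zero, zero_mul, add_zero, zero_add, s1, s2, s3, s4] at *
  have p1 : 0 < D v Y O * D v Y O := mul_self_pos.2 hv
  have p2 : D u X O ≠ 0 := fun e => by
    rw [e] at g0
    nlinarith [mul_self_nonneg (D v X O), mul_self_nonneg (6 * Y O * Y O * D v Y O)]
  have p3 : D v X O = 0 := by simpa [p2] using a0
  simp only [p3, mul_zero, zero_mul, add_zero, zero_add] at *
  have p4 : D u (D u Y) O = 0 := by simpa [Y0, hv] using b1
  have p5 : D u (D v Y) O = 0 := by simpa [Y0, hv] using c1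
  simp only [p4, p5, mul_zero, zero_mul, add_zero, zero_add] at *
  have p6 : D u (D v X) O = 0 := by simpa [p2] using a1
  have p7 : D v (D v X) O = 0 := by simpa [p2] using d1
  simp only [p6, p7, mul_zero, zero_mul, add_zero, zero_add] at *
  have p8 : D u (D u (D u Y)) O = 0 := by simpa [Y0, hv] using b2
  have p9 : D v (D v (D u Y)) O = 0 := by simpa [Y0, hv] using c2
  simp only [p8, p9, mul_zero, add_zero] at *
  have : Y O ^ 2 * D v Y O * D u X O ^ 3 = 0 := by linear_combination a2 / 72 - g1 / 144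
  simp [Y0, hv, p2] at this

noncomputable def g : ℝ ≃o ℝ :=
  have h : StrictMono fun x : ℝ => 4 * (x - 1 / 2) ^ 3 + 1 / 2 := fun x y e => by
    linarith [Odd.strictMono_pow (show Odd 3 by decide) (show x - 1 / 2 < y - 1 / 2 by linarith)]
  StrictMono.orderIsoOfSurjective (fun x => min (4 * (x - 1 / 2) ^ 3 + 1 / 2) (2 * x))
    (fun x y e => min_lt_min (h e) (by linarith)) (Continuous.surjective (by fun_prop)
      (tendsto_atTop_mono' _ (f₁ := id) ((eventually_ge_atTop 1).mono fun x e =>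
        le_min (by simp only [id]; nlinarith [mul_nonneg (sub_nonneg.2 e) (sq_nonneg x)])
          (by simp only [id]; linarith)) tendsto_id)
      (tendsto_atBot_mono (fun x => min_le_right _ _) (tendsto_id.const_mul_atBot two_pos)))

lemma g_def (x : ℝ) : g x = min (4 * (x - 1 / 2) ^ 3 + 1 / 2) (2 * x) := rfl

noncomputable def T (p : ℝ × ℝ) : ℝ := g.symm (max (g p.1 + g p.2 - 1) 0)

lemma tn : IsContTNorm T := by
  have g0 : g 0 = 0 := by norm_num [g_def]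
  have g1 : g 1 = 1 := by norm_num [g_def]
  have c1 := g.continuous
  have c2 := g.symm.continuous
  refine ⟨Continuous.continuousOn (by unfold T; fun_prop), fun x hx => ?_⟩
  have x0 := g0 ▸ g.monotone hx.1
  have x1 := g1 ▸ g.monotone hx.2
  refine ⟨by simp [T, g1, x0], fun y hy => ?_⟩
  have y1 := g1 ▸ g.monotone hy.2
  refine ⟨⟨g.le_symm_apply.2 (by simp [g0]), g.symm_apply_le.2 (by simp [g1]; linarith)⟩,
    by simp [T, add_comm], fun z hz => ⟨?_, fun e => g.symm.monotone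
      (max_le_max_right _ (by linarith [g.monotone e]))⟩⟩
  have z1 := g1 ▸ g.monotone hz.2
  simp only [T, g.apply_symm_apply, max_def]
  congr 1
  split_ifs <;> linarith

def U : Set (ℝ × ℝ) := Ioo (0.45 : ℝ) 0.55 ×ˢ Ioo (0.7 : ℝ) 0.8

noncomputable def P (p : ℝ × ℝ) : ℝ := 2 * (p.1 - 1 / 2) ^ 3 + 2 * (p.2 - 1 / 2) ^ 3

lemma TP {p : ℝ × ℝ} (hp : p ∈ U) : T =ᶠ[𝓝 p] P := by
  filter_upwards [(isOpen_Ioo.prod isOpen_Ioo).mem_nhds hp] with ⟨x, y⟩ ⟨⟨a1, a2⟩, b1, b2⟩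
  have k : ∀ x : ℝ, 0.4 < x → x < 1 → g x = 4 * (x - 1 / 2) ^ 3 + 1 / 2 := fun x h1 h2 =>
    min_eq_left (by nlinarith [mul_pos (sub_pos.2 h1) (sub_pos.2 h2)])
  have c := Odd.strictMono_pow (R := ℝ) (show Odd 3 by decide)
  have c1 := c (show -0.05 < x - 1 / 2 by linarith)
  have c2 := c (show x - 1 / 2 < 0.05 by linarith)
  have c3 := c (show 0.2 < y - 1 / 2 by linarith)
  have c4 := c (show y - 1 / 2 < 0.3 by linarith)
  have d1 : 0 < P (x, y) := by simp only [P]; norm_num at *; linarith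
  have d2 : P (x, y) < 0.1 := by simp only [P]; norm_num at *; linarith
  rw [T, g.symm_apply_eq, k x (by linarith) (by linarith), k y (by linarith) (by linarith), g_def,
    min_eq_right (by nlinarith [mul_pos d1 (sub_pos.2 d2), pow_pos d1 3]), max_eq_left] <;>
    simp only [P] at * <;> linarith

lemma dP (p : ℝ × ℝ) : HasFDerivAt P ((6 * (p.1 - 1 / 2) * (p.1 - 1 / 2)) • .fst ℝ ℝ ℝ +
    (6 * (p.2 - 1 / 2) * (p.2 - 1 / 2)) • .snd ℝ ℝ ℝ : ℝ × ℝ →L[ℝ] ℝ) p :=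
  ((((hasFDerivAt_fst.sub_const _).pow 3).const_mul 2).add
    (((hasFDerivAt_snd.sub_const _).pow 3).const_mul 2)).congr_fderiv (by ext <;> simp <;> ring)

lemma d1 {p : ℝ × ℝ} (hp : p ∈ U) (v : ℝ × ℝ) : fderiv ℝ T p v =
    6 * (p.1 - 1 / 2) * (p.1 - 1 / 2) * v.1 + 6 * (p.2 - 1 / 2) * (p.2 - 1 / 2) * v.2 := by
  simp [(TP hp).fderiv_eq, (dP p).fderiv]

lemma d2 {p : ℝ × ℝ} (hp : p ∈ U) (v w : ℝ × ℝ) : fderiv ℝ (fderiv ℝ T) p v w =
    12 * ((p.1 - 1 / 2) * (v.1 * w.1) + (p.2 - 1 / 2) * (v.2 * w.2)) := by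
  have a := hasFDerivAt_fst (𝕜 := ℝ) (p := p).sub_const (1 / 2)
  have b := hasFDerivAt_snd (𝕜 := ℝ) (p := p).sub_const (1 / 2)
  have := ((((a.const_mul 6).fun_mul a).smul_const (ContinuousLinearMap.fst ℝ ℝ ℝ)).fun_add
    (((b.const_mul 6).fun_mul b).smul_const (ContinuousLinearMap.snd ℝ ℝ ℝ))).fderiv
  rw [(TP hp).fderiv.fderiv_eq, funext fun p => (dP p).fderiv]
  refine (congrArg (· v w) this).trans ?_
  simp
  ring

/-- A continuous t-norm, smooth on an open set, whose graph is not isothermal near a non-umbilic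
point. -/
theorem result :
    ∃ (T : ℝ × ℝ → ℝ) (U : Set (ℝ × ℝ)), IsContTNorm T ∧ IsOpen U ∧ U ⊆ Ioo 0 1 ×ˢ Ioo 0 1 ∧
      ContDiffOn ℝ ∞ T U ∧ ∃ p ∈ U, (¬ ∃ κ, ∀ v w, II T p v w = κ * I T p v w) ∧
        ¬ Isothermal T p := by
  have hp : (1 / 2, 3 / 4) ∈ U := by norm_num [U]
  have hU : IsOpen U := isOpen_Ioo.prod isOpen_Ioo
  refine ⟨T, U, tn, hU, prod_mono (Ioo_subset_Ioo (by norm_num) (by norm_num))
    (Ioo_subset_Ioo (by norm_num) (by norm_num)), ContDiffOn.congr (f := P)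
    (ContDiff.contDiffOn (by unfold P; fun_prop)) fun p h => (TP h).self_of_nhds, _, hp, ?_, ?_⟩
  · rintro ⟨κ, h⟩
    have h1 := h (1, 0) (1, 0)
    have h2 := h (0, 1) (0, 1)
    norm_num [I, II, d1 hp, d2 hp] at h1 h2
    simp [← h1] at h2
  rintro ⟨V, Φ, O, h1, h2, h3, h4, h5⟩
  have c := h4.contDiffAt (h1.mem_nhds h2)
  have c3 : ContDiffAt ℝ 3 Φ O := c.of_le (by norm_cast)
  let X : ℝ × ℝ → ℝ := fun b => (Φ b).1 - 1 / 2
  let Y : ℝ × ℝ → ℝ := fun b => (Φ b).2 - 1 / 2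
  have e : ∀ᶠ b in 𝓝 O, b ∈ V ∧ Φ b ∈ U ∧ ∀ v, (fderiv ℝ Φ b v).1 = D v X b ∧
      (fderiv ℝ Φ b v).2 = D v Y b := by
    filter_upwards [h1.mem_nhds h2, c.continuousAt.eventually (hU.mem_nhds (h3 ▸ hp)),
      c3.eventually (by simp)] with b b1 b2 b3
    have := (b3.differentiableAt (by simp)).hasFDerivAt
    exact ⟨b1, b2, fun v => ⟨(congrArg (· v) (this.fst.sub_const _).fderiv).symm,
      (congrArg (· v) (this.snd.sub_const _).fderiv).symm⟩⟩
  have key : ∀ u v : ℝ × ℝ, (∀ b ∈ V, Principal T (Φ b) (fderiv ℝ Φ b u)) →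
      u.1 * v.1 + u.2 * v.2 = 0 → u.1 ^ 2 + u.2 ^ 2 = v.1 ^ 2 + v.2 ^ 2 →
      (D u Y O = 0 ∨ D v Y O = 0) ∧ (D u Y O = 0 → D v Y O = 0) := fun u v a1 a2 a3 => by
    have f : ∀ᶠ b in 𝓝 O, I T (Φ b) (fderiv ℝ Φ b u) (fderiv ℝ Φ b v) = 0 ∧
        I T (Φ b) (fderiv ℝ Φ b u) (fderiv ℝ Φ b u) =
          I T (Φ b) (fderiv ℝ Φ b v) (fderiv ℝ Φ b v) := e.mono fun b hb => by
      obtain ⟨l, -, hl⟩ := (h5 b hb.1).2.2
      refine ⟨?_, by rw [hl, hl, a3]⟩
      have t1 := hl (u + v)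
      have t2 := hl u
      have t3 := hl v
      simp only [I, map_add, Prod.fst_add, Prod.snd_add] at t1 t2 t3 ⊢
      linear_combination (t1 - t2 - t3) / 2 + l * a2
    have e1 : X * (D u X * D v X) + Y * (D u Y * D v Y) =ᶠ[𝓝 O] fun _ => 0 :=
      (e.and f).mono fun b ⟨⟨b1, b2, b3⟩, b4, _⟩ => by
        obtain ⟨κ, hκ⟩ := (a1 b b1).2
        have := hκ (fderiv ℝ Φ b v)
        rw [b4, mul_zero, II, div_eq_zero_iff, d2 b2, or_iff_left (by positivity)] at this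
        simp only [b3] at this
        exact (mul_eq_zero.1 this).resolve_left (by norm_num)
    have X0 : X O = 0 := by simp [X, h3]
    have Y0 : Y O ≠ 0 := by norm_num [Y, h3]
    refine ⟨by simpa [X0, Y0] using e1.self_of_nhds, fun hu => by_contra fun hv =>
      core (c3.fst.sub contDiffAt_const) (c3.snd.sub contDiffAt_const) X0 Y0 hu hv e1
        ((e.and f).mono fun b ⟨⟨_, b2, b3⟩, b4, _⟩ => ?_)
        ((e.and f).mono fun b ⟨⟨_, b2, b3⟩, _, b4⟩ => ?_)⟩ <;>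
      simp only [I, d1 b2, b3] at b4 <;> exact b4
  have k1 := key (1, 0) (0, 1) (fun b hb => (h5 b hb).1) (by simp) (by simp)
  have k2 := key (0, 1) (1, 0) (fun b hb => (h5 b hb).2.1) (by simp) (by simp)
  have k3 : D (1, 0) Y O = 0 ∧ D (0, 1) Y O = 0 := by tauto
  obtain ⟨-, b2, b3⟩ := e.self_of_nhds
  obtain ⟨l, l0, hl⟩ := (h5 O h2).2.2
  have a1 := hl (1, 0)
  have a2 := hl (0, 1)
  have a3 := hl ((1, 0) + (0, 1))
  simp only [I, d1 hp, map_add, Prod.fst_add, Prod.snd_add, b3, h3, k3] at a1 a2 a3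
  norm_num at a1 a2 a3
  have : D (1, 0) X O * D (0, 1) X O = 0 := by linarith
  rcases mul_eq_zero.1 this with h | h <;> simp [h] at a1 a2 <;> linarith

end Pool.Agent.Results.MP_9703cd_gt.Cubic
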